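import Mathlib
import Pool.Agent.X85.KhD

/-!
# The sequences of partial products which are Khintchin sequences form a meagre set
-/

set_option autoImplicit false
open MeasureTheory Filter Topology
open scoped ENNReal

namespace Pool.Agent.Results.MP_1ea763_an.Meagre

/-- `λ_1, λ_2, …` is an `L^p`-Khintchin sequence. -/
def LpKhintchin (p : ℝ≥0∞) (lam : ℕ → ℕ) : Prop :=
  ∀ f : UnitAddCircle → ℝ, MemLp f p volume →
    ∀ᵐ x : UnitAddCircle, Tendsto (fun N : ℕ => (1 / (N : ℝ)) * ∑ n ∈ Finset.Icc 1 N, f (lam n • x))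
      atTop (𝓝 (∫ x, f x))

/-- The space `X = {2, 3, 4, …}^ℕ` with the product of the discrete topologies; `ω i` is the entry
`ω_{i+1}`. -/
abbrev X : Type := ℕ → {m : ℕ // 2 ≤ m}

/-- The partial products `ω_n ⋯ ω_1`. -/
def P (ω : X) (n : ℕ) : ℕ := ∏ i ∈ Finset.range n, (ω i : ℕ)

/-- For every `p` the set of all `ω` in `{2, 3, 4, …}^ℕ` whose sequence of partial products is an
`L^p`-Khintchin sequence is meagre; for `p = 1` this set is `K`. -/
theorem result (p : ℝ≥0∞) : IsMeagre {ω : X | LpKhintchin p (P ω)} :=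
  Pool.Agent.X85.Kh.meagre (fun a : {m : ℕ // 2 ≤ m} => (a : ℕ)) ⟨2, le_rfl⟩
    ⟨3, by norm_num⟩ rfl rfl (fun a => lt_of_lt_of_le (by norm_num) a.2) p

end Pool.Agent.Results.MP_1ea763_an.Meagre
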